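import Mathlib

set_option autoImplicit false

open Filter Topology Set

namespace Pool.Agent.Results.MP_a5b52c_an.NotDense

/-- The weak-star closed convex hull of a subset `B` of the dual space. -/
def wsHull {X : Type*} [NormedAddCommGroup X] [NormedSpace ℝ X] (B : Set (StrongDual ℝ X)) :
    Set (StrongDual ℝ X) :=
  StrongDual.toWeakDual ⁻¹' closure (convexHull ℝ (StrongDual.toWeakDual '' B))

/-- The (I)-envelope of `A`: the intersection, over all countable covers `A = ⋃ n, c n`, of the
norm-closed convex hull of the union of the weak-star closed convex hulls of the `c n`. -/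
def Ienv {X : Type*} [NormedAddCommGroup X] [NormedSpace ℝ X] (A : Set (StrongDual ℝ X)) :
    Set (StrongDual ℝ X) :=
  ⋂ (c : ℕ → Set (StrongDual ℝ X)) (_ : A = ⋃ n, c n),
    closure (convexHull ℝ (⋃ n, wsHull (c n)))

/-- The union over `n` of the (I)-envelopes of the bounded parts of `A`. -/
def IenvB {X : Type*} [NormedAddCommGroup X] [NormedSpace ℝ X] (A : Set (StrongDual ℝ X)) :
    Set (StrongDual ℝ X) :=
  ⋃ n : ℕ, Ienv (A ∩ Metric.closedBall 0 (n : ℝ))

section general

variable {X : Type*} [NormedAddCommGroup X] [NormedSpace ℝ X]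

theorem subset_wsHull (B : Set (StrongDual ℝ X)) : B ⊆ wsHull B := by
  intro a ha
  have h1 : StrongDual.toWeakDual a ∈ StrongDual.toWeakDual '' B := mem_image_of_mem _ ha
  have h2 := subset_convexHull ℝ (StrongDual.toWeakDual '' B) h1
  show StrongDual.toWeakDual a ∈ closure (convexHull ℝ (StrongDual.toWeakDual '' B))
  exact subset_closure h2

theorem wsHull_mono {B C : Set (StrongDual ℝ X)} (h : B ⊆ C) : wsHull B ⊆ wsHull C :=
  preimage_mono (closure_mono (convexHull_mono (image_mono h)))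

theorem convex_wsHull (B : Set (StrongDual ℝ X)) : Convex ℝ (wsHull B) := by
  have h1 : Convex ℝ (closure (convexHull ℝ (StrongDual.toWeakDual '' B))) :=
    (convex_convexHull ℝ _).closure
  exact h1.linear_preimage (StrongDual.toWeakDual (𝕜 := ℝ) (E := X)).toLinearMap

theorem le_of_mem_wsHull {B : Set (StrongDual ℝ X)} {f : X} {c : ℝ} (h : ∀ a ∈ B, c ≤ a f)
    {a : StrongDual ℝ X} (ha : a ∈ wsHull B) : c ≤ a f := by
  have hcont : Continuous fun y : WeakDual ℝ X => y f := WeakDual.eval_continuous f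
  have hclosed : IsClosed {y : WeakDual ℝ X | c ≤ y f} := isClosed_le continuous_const hcont
  have hconv : Convex ℝ {y : WeakDual ℝ X | c ≤ y f} := by
    intro x hx y hy a b ha hb hab
    have hx' : c ≤ x f := hx
    have hy' : c ≤ y f := hy
    show c ≤ a * x f + b * y f
    calc c = a * c + b * c := by rw [← add_mul, hab, one_mul]
      _ ≤ a * x f + b * y f :=
        add_le_add (mul_le_mul_of_nonneg_left hx' ha) (mul_le_mul_of_nonneg_left hy' hb)
  have hsub : closure (convexHull ℝ (StrongDual.toWeakDual '' B)) ⊆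
      {y : WeakDual ℝ X | c ≤ y f} := by
    apply closure_minimal _ hclosed
    apply convexHull_min _ hconv
    rintro _ ⟨b, hb, rfl⟩
    exact h b hb
  exact hsub ha

theorem isClosed_one_le_norm : IsClosed {y : StrongDual ℝ X | 1 ≤ ‖y‖} :=
  isClosed_le continuous_const continuous_norm

theorem norm_le_of_mem_closedBall {a : StrongDual ℝ X} {r : ℝ}
    (h : a ∈ Metric.closedBall (0 : StrongDual ℝ X) r) : ‖a‖ ≤ r :=
  mem_closedBall_zero_iff.1 h

theorem not_one_le_norm_zero : ¬ (1 ≤ ‖(0 : StrongDual ℝ X)‖) := by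
  rw [norm_zero]
  norm_num

end general

/-- The Dirac measure at `t`, as an element of the dual of `C([0,1])`. -/
noncomputable def dirac (t : unitInterval) : StrongDual ℝ C(unitInterval, ℝ) :=
  ContinuousMap.evalCLM ℝ t

theorem dirac_apply (t : unitInterval) (f : C(unitInterval, ℝ)) : dirac t f = f t := rfl

theorem norm_dirac_le (t : unitInterval) : ‖dirac t‖ ≤ 1 := by
  apply ContinuousLinearMap.opNorm_le_bound _ zero_le_one
  intro f
  rw [one_mul]
  exact f.norm_coe_le_norm t

/-- The Dirac measures at irrational points. -/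
def P : Set (StrongDual ℝ C(unitInterval, ℝ)) :=
  {a | ∃ t : unitInterval, Irrational (t : ℝ) ∧ a = dirac t}

/-- Large negative multiples of the Dirac measures at rational points. -/
def Q : Set (StrongDual ℝ C(unitInterval, ℝ)) :=
  {a | ∃ (q : ℚ) (t : unitInterval), (t : ℝ) = q ∧
    a = -((Encodable.encode q : ℝ) + 1) • dirac t}

/-- Every nonempty open subset of `[0,1]` contains a nondegenerate real interval. -/
theorem exists_interval {O : Set unitInterval} (hO : IsOpen O) (hne : O.Nonempty) :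
    ∃ a b : ℝ, a < b ∧ ∀ x : ℝ, a < x → x < b → ∃ t ∈ O, (t : ℝ) = x := by
  obtain ⟨t0, ht0⟩ := hne
  obtain ⟨ε, hε, hsub⟩ := Metric.isOpen_iff.1 hO t0 ht0
  have h0 := t0.2.1
  have h1 := t0.2.2
  refine ⟨max 0 (t0 - ε), min 1 (t0 + ε), ?_, ?_⟩
  · rw [max_lt_iff, lt_min_iff, lt_min_iff]
    refine ⟨⟨zero_lt_one, by linarith⟩, by linarith, by linarith⟩
  · intro x hx1 hx2
    rw [max_lt_iff] at hx1
    rw [lt_min_iff] at hx2
    refine ⟨⟨x, hx1.1.le, hx2.1.le⟩, hsub ?_, rfl⟩
    rw [Metric.mem_ball, Subtype.dist_eq, Real.dist_eq, abs_lt]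
    constructor <;> simp only <;> linarith [hx1.2, hx2.2]

/-- If countably many sets cover the irrational points of `[0,1]`, then the closure of one of
them contains a rational point. -/
theorem exists_rat_mem_closure (W : ℕ → Set unitInterval)
    (hW : ∀ t : unitInterval, Irrational (t : ℝ) → ∃ n, t ∈ W n) :
    ∃ (n : ℕ) (q : ℚ) (t : unitInterval), (t : ℝ) = q ∧ t ∈ closure (W n) := by
  let f : ℕ ⊕ ℚ → Set unitInterval :=
    Sum.elim (fun n => closure (W n)) (fun q => {t | (t : ℝ) = q})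
  have hf : ∀ i, IsClosed (f i) := by
    rintro (n | q)
    · exact isClosed_closure
    · exact isClosed_eq continuous_subtype_val continuous_const
  have hcov : ⋃ i, f i = univ := by
    rw [eq_univ_iff_forall]
    intro t
    rw [mem_iUnion]
    by_cases ht : Irrational (t : ℝ)
    · obtain ⟨n, hn⟩ := hW t ht
      exact ⟨Sum.inl n, subset_closure hn⟩
    · unfold Irrational at ht
      rw [not_not] at ht
      obtain ⟨q, hq⟩ := ht
      exact ⟨Sum.inr q, hq.symm⟩
  obtain ⟨i, hi⟩ := nonempty_interior_of_iUnion_of_closed hf hcov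
  obtain ⟨a, b, hab, hint⟩ := exists_interval isOpen_interior hi
  rcases i with n | q
  · obtain ⟨q, hq1, hq2⟩ := exists_rat_btwn hab
    obtain ⟨t, ht, htq⟩ := hint q hq1 hq2
    exact ⟨n, q, t, htq, interior_subset ht⟩
  · exfalso
    obtain ⟨x, hx, hx1, hx2⟩ := exists_irrational_btwn hab
    obtain ⟨t, ht, htx⟩ := hint x hx1 hx2
    have ht' := interior_subset ht
    have : (t : ℝ) = q := ht'
    apply hx
    exact ⟨q, by rw [← this, htx]⟩

theorem dirac_mem_wsHull {W : Set unitInterval} {B : Set (StrongDual ℝ C(unitInterval, ℝ))}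
    (hWB : ∀ t ∈ W, dirac t ∈ B) {t : unitInterval} (ht : t ∈ closure W) :
    dirac t ∈ wsHull B := by
  have hcont : Continuous fun t : unitInterval =>
      (StrongDual.toWeakDual (dirac t) : WeakDual ℝ C(unitInterval, ℝ)) := by
    apply WeakDual.continuous_of_continuous_eval
    intro f
    exact f.continuous
  have h1 : MapsTo (fun t : unitInterval =>
      (StrongDual.toWeakDual (dirac t) : WeakDual ℝ C(unitInterval, ℝ))) W
      (convexHull ℝ (StrongDual.toWeakDual '' B)) := by
    intro s hs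
    exact subset_convexHull ℝ _ (mem_image_of_mem _ (hWB s hs))
  exact h1.closure hcont ht

theorem zero_mem_Ienv : (0 : StrongDual ℝ C(unitInterval, ℝ)) ∈ Ienv (P ∪ Q) := by
  unfold Ienv
  rw [mem_iInter₂]
  intro c hc
  apply subset_closure
  obtain ⟨n, q, t, htq, ht⟩ := exists_rat_mem_closure (fun n => {t | dirac t ∈ c n}) (by
    intro t ht
    have : dirac t ∈ P ∪ Q := Or.inl ⟨t, ht, rfl⟩
    rw [hc, mem_iUnion] at this
    exact this)
  have h1 : dirac t ∈ convexHull ℝ (⋃ n, wsHull (c n)) :=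
    subset_convexHull ℝ _ (mem_iUnion.2 ⟨n, dirac_mem_wsHull (fun s hs => hs) ht⟩)
  have h2 : -((Encodable.encode q : ℝ) + 1) • dirac t ∈ P ∪ Q := Or.inr ⟨q, t, htq, rfl⟩
  rw [hc, mem_iUnion] at h2
  obtain ⟨m, hm⟩ := h2
  have h3 : -((Encodable.encode q : ℝ) + 1) • dirac t ∈ convexHull ℝ (⋃ n, wsHull (c n)) :=
    subset_convexHull ℝ _ (mem_iUnion.2 ⟨m, subset_wsHull _ hm⟩)
  have hk : (0 : ℝ) ≤ (Encodable.encode q : ℝ) := Nat.cast_nonneg _
  obtain ⟨k, hkk⟩ : ∃ k : ℝ, k = (Encodable.encode q : ℝ) := ⟨_, rfl⟩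
  rw [← hkk] at h3 hk
  have h4 := (convex_convexHull ℝ (⋃ n, wsHull (c n))) h1 h3
    (a := (k + 1) / (k + 2)) (b := 1 / (k + 2)) (by positivity) (by positivity)
    (by field_simp; ring)
  have h5 : ((k + 1) / (k + 2)) • dirac t + (1 / (k + 2)) • (-(k + 1) • dirac t) = 0 := by
    rw [smul_smul, ← add_smul]
    have : (k + 1) / (k + 2) + 1 / (k + 2) * -(k + 1) = 0 := by
      field_simp
      ring
    rw [this, zero_smul]
  rwa [h5] at h4

theorem one_le_norm_of_mem {N : ℕ} {z : StrongDual ℝ C(unitInterval, ℝ)}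
    (hz : z ∈ Ienv ((P ∪ Q) ∩ Metric.closedBall 0 (N : ℝ))) : 1 ≤ ‖z‖ := by
  -- the finite set of relevant rationals
  have hfin : {q : ℚ | Encodable.encode q ≤ N}.Finite :=
    (Set.finite_Iic N).preimage (Encodable.encode_injective.injOn)
  let D : ℕ → Set (StrongDual ℝ C(unitInterval, ℝ)) := fun n =>
    {a | (∃ t : unitInterval, Irrational (t : ℝ) ∧ a = dirac t ∧
        ∀ q : ℚ, Encodable.encode q ≤ N → 1 / ((n : ℝ) + 1) ≤ |(t : ℝ) - q|) ∨
      (∃ (q : ℚ) (t : unitInterval), Encodable.encode q ≤ N ∧ (t : ℝ) = q ∧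
        a = -((Encodable.encode q : ℝ) + 1) • dirac t)}
  let c : ℕ → Set (StrongDual ℝ C(unitInterval, ℝ)) := fun n =>
    ((P ∪ Q) ∩ Metric.closedBall 0 (N : ℝ)) ∩ D n
  have hc : (P ∪ Q) ∩ Metric.closedBall 0 (N : ℝ) = ⋃ n, c n := by
    rw [← inter_iUnion]
    apply Subset.antisymm _ inter_subset_left
    rintro a ⟨ha, haN⟩
    refine ⟨⟨ha, haN⟩, ?_⟩
    rw [mem_iUnion]
    rcases ha with ⟨t, ht, rfl⟩ | ⟨q, t, htq, rfl⟩
    · -- positive distance to the finite set
      have h1 : ∀ q ∈ {q : ℚ | Encodable.encode q ≤ N},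
          ∀ᶠ n : ℕ in atTop, 1 / ((n : ℝ) + 1) ≤ |(t : ℝ) - q| := by
        intro q _
        have hpos : 0 < |(t : ℝ) - q| := by
          rw [abs_pos, sub_ne_zero]
          intro h
          exact ht ⟨q, h.symm⟩
        have := (tendsto_one_div_add_atTop_nhds_zero_nat (𝕜 := ℝ)).eventually
          (gt_mem_nhds hpos)
        exact this.mono fun n hn => hn.le
      obtain ⟨n, hn⟩ := ((hfin.eventually_all).2 h1).exists
      exact ⟨n, Or.inl ⟨t, ht, rfl, hn⟩⟩
    · refine ⟨0, Or.inr ⟨q, t, ?_, htq, rfl⟩⟩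
      have haN' := norm_le_of_mem_closedBall haN
      have h1 := (-((Encodable.encode q : ℝ) + 1) • dirac t).le_opNorm (1 : C(unitInterval, ℝ))
      have h2 : (-((Encodable.encode q : ℝ) + 1) • dirac t) (1 : C(unitInterval, ℝ)) =
          -((Encodable.encode q : ℝ) + 1) := by
        show -((Encodable.encode q : ℝ) + 1) * (1 : ℝ) = _
        ring
      rw [h2, norm_one, mul_one, norm_neg, Real.norm_eq_abs, abs_of_pos (by positivity)] at h1
      have h3 : (Encodable.encode q : ℝ) ≤ N := by linarith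
      exact_mod_cast h3
  have hmono : Monotone c := by
    intro m n hmn
    apply inter_subset_inter_right
    rintro a (⟨t, ht, rfl, h⟩ | h)
    · left
      refine ⟨t, ht, rfl, fun q hq => le_trans ?_ (h q hq)⟩
      apply one_div_le_one_div_of_le (by positivity)
      have : (m : ℝ) ≤ n := by exact_mod_cast hmn
      linarith
    · exact Or.inr h
  -- each hull has all its elements of norm at least one
  have hnorm : ∀ n, ∀ y ∈ wsHull (c n), 1 ≤ ‖y‖ := by
    intro n y hy
    let s : Set unitInterval := {t | ∃ q : ℚ, Encodable.encode q ≤ N ∧ (t : ℝ) = q}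
    let r : Set unitInterval :=
      {t | ∀ q : ℚ, Encodable.encode q ≤ N → 1 / ((n : ℝ) + 1) ≤ |(t : ℝ) - q|}
    have hs : IsClosed s := by
      have : s.Finite := by
        have h1 : s ⊆ Subtype.val ⁻¹' ((fun q : ℚ => (q : ℝ)) '' {q : ℚ | Encodable.encode q ≤ N}) := by
          rintro t ⟨q, hq, htq⟩
          exact ⟨q, hq, htq.symm⟩
        exact ((hfin.image _).preimage Subtype.val_injective.injOn).subset h1
      exact this.isClosed
    have hr : IsClosed r := by
      have : r = ⋂ (q : ℚ) (_ : Encodable.encode q ≤ N),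
          {t : unitInterval | 1 / ((n : ℝ) + 1) ≤ |(t : ℝ) - q|} := by
        ext t
        simp [r]
      rw [this]
      refine isClosed_iInter fun q => isClosed_iInter fun _ => ?_
      exact isClosed_le continuous_const ((continuous_subtype_val.sub continuous_const).abs)
    have hdisj : Disjoint s r := by
      rw [Set.disjoint_left]
      rintro t ⟨q, hq, htq⟩ htr
      have h1 := htr q hq
      rw [htq, sub_self, abs_zero] at h1
      have h2 : (0 : ℝ) < 1 / ((n : ℝ) + 1) := by positivity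
      linarith
    obtain ⟨g, hg0, hg1, hg⟩ := exists_continuous_zero_one_of_isClosed hs hr hdisj
    let f : C(unitInterval, ℝ) := (2 : ℝ) • g - 1
    have hf : ∀ t, f t = 2 * g t - 1 := by
      intro t
      simp [f]
    have hfn : ‖f‖ ≤ 1 := by
      rw [ContinuousMap.norm_le _ zero_le_one]
      intro t
      rw [hf, Real.norm_eq_abs, abs_le]
      have := hg t
      constructor <;> linarith [this.1, this.2]
    have h1 : 1 ≤ y f := by
      refine le_of_mem_wsHull ?_ hy
      rintro a ⟨-, ⟨t, ht, rfl, h⟩ | ⟨q, t, hq, htq, rfl⟩⟩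
      · rw [dirac_apply, hf, hg1 h]
        norm_num
      · have h2 : f t = -1 := by
          rw [hf, hg0 ⟨q, hq, htq⟩]
          norm_num
        show 1 ≤ -((Encodable.encode q : ℝ) + 1) * f t
        rw [h2]
        have : (0 : ℝ) ≤ (Encodable.encode q : ℝ) := Nat.cast_nonneg _
        linarith
    calc 1 ≤ y f := h1
      _ ≤ ‖y f‖ := Real.le_norm_self _
      _ ≤ ‖y‖ * ‖f‖ := y.le_opNorm f
      _ ≤ ‖y‖ * 1 := mul_le_mul_of_nonneg_left hfn (norm_nonneg _)
      _ = ‖y‖ := mul_one _
  unfold Ienv at hz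
  rw [mem_iInter₂] at hz
  have hz1 := hz c hc
  have hconv : Convex ℝ (⋃ n, wsHull (c n)) := by
    apply Directed.convex_iUnion
    · exact (monotone_nat_of_le_succ fun n => wsHull_mono (hmono n.le_succ)).directed_le
    · intro n
      exact convex_wsHull _
  rw [hconv.convexHull_eq] at hz1
  have hclosed : IsClosed {y : StrongDual ℝ C(unitInterval, ℝ) | 1 ≤ ‖y‖} :=
    isClosed_one_le_norm
  refine closure_minimal ?_ hclosed hz1
  intro y hy
  rw [mem_iUnion] at hy
  obtain ⟨n, hn⟩ := hy
  exact hnorm n y hn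

theorem result : ∃ A : Set (StrongDual ℝ C(unitInterval, ℝ)),
    ¬ (Ienv A ⊆ closure (IenvB A)) := by
  refine ⟨P ∪ Q, fun hcon => ?_⟩
  have h1 := hcon zero_mem_Ienv
  have hclosed : IsClosed {y : StrongDual ℝ C(unitInterval, ℝ) | 1 ≤ ‖y‖} :=
    isClosed_one_le_norm
  have h2 : closure (IenvB (P ∪ Q)) ⊆ {y : StrongDual ℝ C(unitInterval, ℝ) | 1 ≤ ‖y‖} := by
    apply closure_minimal _ hclosed
    intro y hy
    unfold IenvB at hy
    rw [mem_iUnion] at hy
    obtain ⟨n, hn⟩ := hy
    exact one_le_norm_of_mem hn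
  exact not_one_le_norm_zero (h2 h1)

end Pool.Agent.Results.MP_a5b52c_an.NotDense
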