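import Pool.Agent.IEV.Sub

/-!
# MP_a5b52c_an, Q1: density of bounded-part (I)-envelopes, for norm-closed linear subspaces

The question is answered in the negative for a norm-closed linear subspace `A` of a dual space.
-/

set_option autoImplicit false

open Filter Topology Set

namespace Pool.Agent.Results.MP_a5b52c_an.SubspaceNotDense

/-- The weak-star closed convex hull of a subset `B` of the dual space. -/
def wsHull {X : Type*} [NormedAddCommGroup X] [NormedSpace ℝ X] (B : Set (StrongDual ℝ X)) :
    Set (StrongDual ℝ X) :=
  StrongDual.toWeakDual ⁻¹' closure (convexHull ℝ (StrongDual.toWeakDual '' B))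

/-- The (I)-envelope of `A`: the intersection, over all countable covers `A = ⋃ n, c n`, of the
norm-closed convex hull of the union of the weak-star closed convex hulls of the `c n`. -/
def Ienv {X : Type*} [NormedAddCommGroup X] [NormedSpace ℝ X] (A : Set (StrongDual ℝ X)) :
    Set (StrongDual ℝ X) :=
  ⋂ (c : ℕ → Set (StrongDual ℝ X)) (_ : A = ⋃ n, c n),
    closure (convexHull ℝ (⋃ n, wsHull (c n)))

/-- The union over `n` of the (I)-envelopes of the bounded parts of `A`. -/
def IenvB {X : Type*} [NormedAddCommGroup X] [NormedSpace ℝ X] (A : Set (StrongDual ℝ X)) :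
    Set (StrongDual ℝ X) :=
  ⋃ n : ℕ, Ienv (A ∩ Metric.closedBall 0 (n : ℝ))

/-- There are a real Banach space `X` and a norm-closed linear subspace `A` of its dual such that
the union of the (I)-envelopes of the bounded parts of `A` is not norm-dense in the (I)-envelope of
`A`. -/
theorem result :
    ∃ (X : Type) (_ : NormedAddCommGroup X) (_ : NormedSpace ℝ X) (_ : CompleteSpace X)
      (A : Submodule ℝ (StrongDual ℝ X)), IsClosed (A : Set (StrongDual ℝ X)) ∧
        ¬ (Ienv (A : Set (StrongDual ℝ X)) ⊆ closure (IenvB (A : Set (StrongDual ℝ X)))) :=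
  Pool.Agent.IEV.main

end Pool.Agent.Results.MP_a5b52c_an.SubspaceNotDense
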